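import Pool.Agent.REV.StmtsV

set_option autoImplicit false

/-! Squad REV, part V, row BSV: the bootstrap. -/

namespace Pool.Agent.REV.H26

open Set MeasureTheory Filter
open scoped Topology

theorem tail_le (f : ℝ → ℝ) (b q c r : ℝ) (hb : 0 < b) (hbq : b ≤ q) (hr : r ≠ -1)
    (hf : IntegrableOn f (Ioi b)) (h : ∀ β, b < β → β ≤ q → f β ≤ c * β ^ r) :
    ∫ β in Ioi b, f β ≤ c * ((q ^ (r + 1) - b ^ (r + 1)) / (r + 1)) + ∫ β in Ioi q, f β := by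
  have h0 : (0 : ℝ) ∉ uIcc b q := by
    rw [uIcc_of_le hbq]
    intro h
    exact absurd h.1 (not_le.mpr hb)
  have h1 : ∫ β in Ioc b q, f β ≤ ∫ β in Ioc b q, c * β ^ r := by
    apply setIntegral_mono_on (hf.mono_set Ioc_subset_Ioi_self) _ measurableSet_Ioc
    · intro β hβ
      exact h β hβ.1 hβ.2
    · have := (intervalIntegral.intervalIntegrable_rpow (μ := volume) (r := r) (Or.inr h0)).const_mul c
      rwa [intervalIntegrable_iff_integrableOn_Ioc_of_le hbq] at this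
  have h2 : ∫ β in Ioc b q, c * β ^ r = c * ((q ^ (r + 1) - b ^ (r + 1)) / (r + 1)) := by
    rw [← intervalIntegral.integral_of_le hbq, intervalIntegral.integral_const_mul,
      integral_rpow (Or.inr ⟨hr, h0⟩)]
  have h3 : ∫ β in Ioi b, f β = (∫ β in Ioc b q, f β) + ∫ β in Ioi q, f β := by
    rw [← Ioc_union_Ioi_eq_Ioi hbq, setIntegral_union (Ioc_disjoint_Ioi le_rfl) measurableSet_Ioi
      (hf.mono_set Ioc_subset_Ioi_self) (hf.mono_set (Ioi_subset_Ioi hbq))]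
  rw [h3]
  linarith

theorem bsv : BsvStmt := by
  intro n R D0 y hn hD0 hmono hy hinf hint
  obtain ⟨j, rfl⟩ : ∃ j, n = j + 4 := ⟨n - 4, by omega⟩
  have e1 : j + 4 - 1 = j + 3 := by omega
  rw [e1] at hint
  have hR : 0 ≤ R := (hy 1 one_pos).1.trans (hy 1 one_pos).2
  -- choice of q
  obtain ⟨q, hq, hyq⟩ := hinf (min 1 (1 / (8 * D0))) (lt_min one_pos (by positivity))
  have hyq1 : y q ≤ 1 := hyq.le.trans (min_le_left _ _)
  have hyq2 : y q ≤ 1 / (8 * D0) := hyq.le.trans (min_le_right _ _)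
  have hyq0 := (hy q hq).1
  have hDq : D0 * y q ^ (j + 2) ≤ 1 / 8 := by
    have h1 : y q ^ (j + 2) ≤ y q := by
      calc y q ^ (j + 2) = y q ^ (j + 1) * y q := by ring
        _ ≤ 1 * y q := mul_le_mul_of_nonneg_right (pow_le_one₀ hyq0 hyq1) hyq0
        _ = y q := one_mul _
    calc D0 * y q ^ (j + 2) ≤ D0 * (1 / (8 * D0)) := mul_le_mul_of_nonneg_left (h1.trans hyq2) hD0.le
      _ = 1 / 8 := by field_simp
  set U : ℝ := ∫ β in Ioi q, (β ^ 2)⁻¹ * y β ^ (j + 3) with hU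
  have hU0 : 0 ≤ U := by
    apply setIntegral_nonneg measurableSet_Ioi
    intro β hβ
    have hβ0 : 0 < β := hq.trans hβ
    exact mul_nonneg (by positivity) (pow_nonneg (hy β hβ0).1 _)
  have hpow2 : ∀ β : ℝ, 0 < β → (β ^ 2)⁻¹ = β ^ (-2 : ℝ) := by
    intro β hβ
    rw [Real.rpow_neg hβ.le]
    norm_cast
  set A : ℝ := D0 * q ^ (1 / 2 : ℝ) * U with hA
  have hA0 : 0 ≤ A := by positivity
  -- first step: the square root bound
  have key : ∀ p : ℝ, 0 < p → p ≤ q → ∀ M : ℝ, 0 ≤ M →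
      (∀ b : ℝ, p ≤ b → b ≤ q → y b ≤ M * b ^ (1 / 2 : ℝ)) →
      ∀ b : ℝ, p ≤ b → b ≤ q → y b ≤ (A + M / 4) * b ^ (1 / 2 : ℝ) := by
    intro p hp _ M hM hyp b hpb hbq
    have hb : 0 < b := hp.trans_le hpb
    obtain ⟨hi, hle⟩ := hint b hb
    have h1 := tail_le (fun β => (β ^ 2)⁻¹ * y β ^ (j + 3)) b q (y q ^ (j + 2) * M) (-3 / 2) hb hbq
      (by norm_num) hi (by
        intro β hbβ hβq
        have hβ : 0 < β := hb.trans hbβ
        have h2 : y β ≤ M * β ^ (1 / 2 : ℝ) := hyp β (hpb.trans hbβ.le) hβq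
        have h3 : y β ≤ y q := hmono hβ hq hβq
        have h4 : y β ^ (j + 3) ≤ y q ^ (j + 2) * (M * β ^ (1 / 2 : ℝ)) := by
          rw [pow_succ]
          exact mul_le_mul (pow_le_pow_left₀ (hy β hβ).1 h3 _) h2 (hy β hβ).1
            (pow_nonneg hyq0 _)
        have h5 : (β ^ 2)⁻¹ * β ^ (1 / 2 : ℝ) = β ^ (-3 / 2 : ℝ) := by
          rw [hpow2 β hβ, ← Real.rpow_add hβ]
          norm_num
        calc (β ^ 2)⁻¹ * y β ^ (j + 3) ≤ (β ^ 2)⁻¹ * (y q ^ (j + 2) * (M * β ^ (1 / 2 : ℝ))) :=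
              mul_le_mul_of_nonneg_left h4 (by positivity)
          _ = y q ^ (j + 2) * M * ((β ^ 2)⁻¹ * β ^ (1 / 2 : ℝ)) := by ring
          _ = y q ^ (j + 2) * M * β ^ (-3 / 2 : ℝ) := by rw [h5])
    have h6 : (q ^ ((-3 / 2 : ℝ) + 1) - b ^ ((-3 / 2 : ℝ) + 1)) / ((-3 / 2 : ℝ) + 1) ≤
        2 * b ^ (-1 / 2 : ℝ) := by
      have e2 : (-3 / 2 : ℝ) + 1 = -1 / 2 := by norm_num
      rw [e2]
      have h7 : 0 ≤ q ^ (-1 / 2 : ℝ) := Real.rpow_nonneg hq.le _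
      have e3 : (q ^ (-1 / 2 : ℝ) - b ^ (-1 / 2 : ℝ)) / (-1 / 2 : ℝ) =
        2 * b ^ (-1 / 2 : ℝ) - 2 * q ^ (-1 / 2 : ℝ) := by ring
      rw [e3]
      linarith
    have hyM : 0 ≤ y q ^ (j + 2) * M := by positivity
    have h8 : ∫ β in Ioi b, (β ^ 2)⁻¹ * y β ^ (j + 3) ≤
        y q ^ (j + 2) * M * (2 * b ^ (-1 / 2 : ℝ)) + U := by
      refine h1.trans ?_
      exact add_le_add (mul_le_mul_of_nonneg_left h6 hyM) le_rfl
    have hbb : b * b ^ (-1 / 2 : ℝ) = b ^ (1 / 2 : ℝ) := by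
      have h9 : b * b ^ (-1 / 2 : ℝ) = b ^ (1 : ℝ) * b ^ (-1 / 2 : ℝ) := by rw [Real.rpow_one]
      rw [h9, ← Real.rpow_add hb]
      norm_num
    have hbb2 : b ≤ q ^ (1 / 2 : ℝ) * b ^ (1 / 2 : ℝ) := by
      have h9 : b = b ^ (1 / 2 : ℝ) * b ^ (1 / 2 : ℝ) := by
        rw [← Real.rpow_add hb]
        norm_num
      calc b = b ^ (1 / 2 : ℝ) * b ^ (1 / 2 : ℝ) := h9
        _ ≤ q ^ (1 / 2 : ℝ) * b ^ (1 / 2 : ℝ) :=
          mul_le_mul_of_nonneg_right (Real.rpow_le_rpow hb.le hbq (by norm_num))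
            (Real.rpow_nonneg hb.le _)
    have hs0 : 0 ≤ b ^ (1 / 2 : ℝ) := Real.rpow_nonneg hb.le _
    calc y b ≤ D0 * (b * ∫ β in Ioi b, (β ^ 2)⁻¹ * y β ^ (j + 3)) := hle
      _ ≤ D0 * (b * (y q ^ (j + 2) * M * (2 * b ^ (-1 / 2 : ℝ)) + U)) := by
          apply mul_le_mul_of_nonneg_left _ hD0.le
          exact mul_le_mul_of_nonneg_left h8 hb.le
      _ = (D0 * y q ^ (j + 2)) * (2 * M * (b * b ^ (-1 / 2 : ℝ))) + D0 * U * b := by ring
      _ = (D0 * y q ^ (j + 2)) * (2 * M * b ^ (1 / 2 : ℝ)) + D0 * U * b := by rw [hbb]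
      _ ≤ 1 / 8 * (2 * M * b ^ (1 / 2 : ℝ)) + D0 * U * (q ^ (1 / 2 : ℝ) * b ^ (1 / 2 : ℝ)) := by
          apply add_le_add
          · exact mul_le_mul_of_nonneg_right hDq (by positivity)
          · exact mul_le_mul_of_nonneg_left hbb2 (by positivity)
      _ = (A + M / 4) * b ^ (1 / 2 : ℝ) := by
          rw [hA]
          ring
  have sq : ∀ b : ℝ, 0 < b → b ≤ q → y b ≤ (4 / 3 * A) * b ^ (1 / 2 : ℝ) := by
    intro p hp hpq
    set S : Set ℝ := (fun b => y b / b ^ (1 / 2 : ℝ)) '' Icc p q with hS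
    have hne : S.Nonempty := ⟨_, mem_image_of_mem _ ⟨le_rfl, hpq⟩⟩
    have hbd : BddAbove S := by
      refine ⟨R / p ^ (1 / 2 : ℝ), ?_⟩
      rintro _ ⟨b, hb, rfl⟩
      have hb0 : 0 < b := hp.trans_le hb.1
      exact div_le_div₀ hR (hy b hb0).2 (Real.rpow_pos_of_pos hp _)
        (Real.rpow_le_rpow hp.le hb.1 (by norm_num))
    have hM0 : 0 ≤ sSup S := by
      apply le_csSup_of_le hbd (mem_image_of_mem _ ⟨le_rfl, hpq⟩ : _ ∈ S)
      exact div_nonneg (hy p hp).1 (Real.rpow_nonneg hp.le _)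
    have hyp : ∀ b : ℝ, p ≤ b → b ≤ q → y b ≤ sSup S * b ^ (1 / 2 : ℝ) := by
      intro b hpb hbq
      have hb0 : 0 < b := hp.trans_le hpb
      rw [← div_le_iff₀ (Real.rpow_pos_of_pos hb0 _)]
      exact le_csSup hbd (mem_image_of_mem _ ⟨hpb, hbq⟩)
    have h1 := key p hp hpq (sSup S) hM0 hyp
    have h2 : sSup S ≤ A + sSup S / 4 := by
      apply csSup_le hne
      rintro _ ⟨b, hb, rfl⟩
      have hb0 : 0 < b := hp.trans_le hb.1
      show y b / b ^ (1 / 2 : ℝ) ≤ _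
      rw [div_le_iff₀ (Real.rpow_pos_of_pos hb0 _)]
      exact h1 b hb.1 hb.2
    have h3 : sSup S ≤ 4 / 3 * A := by linarith
    exact (hyp p le_rfl hpq).trans
      (mul_le_mul_of_nonneg_right h3 (Real.rpow_nonneg hp.le _))
  -- second step
  set M : ℝ := 4 / 3 * A with hM
  have hM0 : 0 ≤ M := by positivity
  set V : ℝ := R ^ j * M ^ 3 * (2 * q ^ (1 / 2 : ℝ)) + U with hV
  have hV0 : 0 ≤ V := by positivity
  refine ⟨max (D0 * V) (R / q), le_max_of_le_left (by positivity), ?_⟩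
  intro b hb
  rcases le_total b q with hbq | hbq
  · obtain ⟨hi, hle⟩ := hint b hb
    have h1 := tail_le (fun β => (β ^ 2)⁻¹ * y β ^ (j + 3)) b q (R ^ j * M ^ 3) (-1 / 2) hb hbq
      (by norm_num) hi (by
        intro β hbβ hβq
        have hβ : 0 < β := hb.trans hbβ
        have h2 : y β ≤ M * β ^ (1 / 2 : ℝ) := sq β hβ hβq
        have h4 : y β ^ (j + 3) ≤ R ^ j * (M * β ^ (1 / 2 : ℝ)) ^ 3 := by
          rw [pow_add]
          exact mul_le_mul (pow_le_pow_left₀ (hy β hβ).1 (hy β hβ).2 _)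
            (pow_le_pow_left₀ (hy β hβ).1 h2 _) (pow_nonneg (hy β hβ).1 _) (pow_nonneg hR _)
        have h5 : (β ^ 2)⁻¹ * (β ^ (1 / 2 : ℝ)) ^ 3 = β ^ (-1 / 2 : ℝ) := by
          rw [hpow2 β hβ, ← Real.rpow_natCast (β ^ (1 / 2 : ℝ)) 3, ← Real.rpow_mul hβ.le,
            ← Real.rpow_add hβ]
          norm_num
        calc (β ^ 2)⁻¹ * y β ^ (j + 3) ≤ (β ^ 2)⁻¹ * (R ^ j * (M * β ^ (1 / 2 : ℝ)) ^ 3) :=
              mul_le_mul_of_nonneg_left h4 (by positivity)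
          _ = R ^ j * M ^ 3 * ((β ^ 2)⁻¹ * (β ^ (1 / 2 : ℝ)) ^ 3) := by ring
          _ = R ^ j * M ^ 3 * β ^ (-1 / 2 : ℝ) := by rw [h5])
    have h6 : (q ^ ((-1 / 2 : ℝ) + 1) - b ^ ((-1 / 2 : ℝ) + 1)) / ((-1 / 2 : ℝ) + 1) ≤
        2 * q ^ (1 / 2 : ℝ) := by
      have e2 : (-1 / 2 : ℝ) + 1 = 1 / 2 := by norm_num
      rw [e2]
      have h7 : 0 ≤ b ^ (1 / 2 : ℝ) := Real.rpow_nonneg hb.le _
      have e3 : (q ^ (1 / 2 : ℝ) - b ^ (1 / 2 : ℝ)) / (1 / 2 : ℝ) =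
        2 * q ^ (1 / 2 : ℝ) - 2 * b ^ (1 / 2 : ℝ) := by ring
      rw [e3]
      linarith
    have h8 : ∫ β in Ioi b, (β ^ 2)⁻¹ * y β ^ (j + 3) ≤ V := by
      refine h1.trans ?_
      exact add_le_add (mul_le_mul_of_nonneg_left h6 (by positivity)) le_rfl
    calc y b ≤ D0 * (b * ∫ β in Ioi b, (β ^ 2)⁻¹ * y β ^ (j + 3)) := hle
      _ ≤ D0 * (b * V) := by
          apply mul_le_mul_of_nonneg_left _ hD0.le
          exact mul_le_mul_of_nonneg_left h8 hb.le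
      _ = D0 * V * b := by ring
      _ ≤ max (D0 * V) (R / q) * b := mul_le_mul_of_nonneg_right (le_max_left _ _) hb.le
  · calc y b ≤ R := (hy b hb).2
      _ = R / q * q := by field_simp
      _ ≤ R / q * b := mul_le_mul_of_nonneg_left hbq (by positivity)
      _ ≤ max (D0 * V) (R / q) * b := mul_le_mul_of_nonneg_right (le_max_right _ _) hb.le

end Pool.Agent.REV.H26
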