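import Pool.Agent.REV.StmtsX
import Pool.Agent.Helper55_PB.VDb

set_option autoImplicit false

/-! Squad REV, part X, row C0G. -/

open MeasureTheory Module Set Filter
open scoped RealInnerProductSpace Pointwise Topology ENNReal

namespace Pool.Agent.REV.H26

open Pool.Agent.Helper55_PB Pool.Agent.Helper28_PB Pool.Agent.BPH

theorem c0g : C0gStmt := by
  intro E _ _ _ _ _ hd K c hG
  have hK : CC K := ⟨hG.compact, hG.convex, ⟨0, interior_subset hG.zero_mem⟩⟩
  have hlim : LimStmt := lim_of vd_sum
  refine ⟨hK, hG.zero_mem, hG.pos, ?_, ?_⟩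
  · intro w
    unfold supportFn
    congr 1
    ext t
    constructor
    · rintro ⟨x, hx, rfl⟩
      exact ⟨-x, hG.symm x hx, by simp⟩
    · rintro ⟨x, hx, rfl⟩
      exact ⟨-x, hG.symm x hx, by simp⟩
  · intro w hw
    have hrank := finrank_perp hw
    have hM : CC ((ℝ ∙ w)ᗮ.orthogonalProjectionOnto '' K) := hK.image _
    have hs := sc_spec hlim (by omega) hM 0 le_rfl
    rw [← hG.eq w]
    have h1 := segVol_eq hG.compact hG.convex hw (zero_le_one)
    rw [one_smul, one_mul, shadowVol] at h1
    rw [h1]
    rw [Metric.closedBall_zero, Set.singleton_zero, add_zero, Finset.sum_eq_single 0] at hs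
    · rw [hs, pow_zero, mul_one]
    · intro j _ hj
      rw [zero_pow hj, mul_zero]
    · intro h
      exact absurd (Finset.mem_range.mpr (Nat.succ_pos _)) h

end Pool.Agent.REV.H26
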